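import Mathlib

/-!
# A cycle of length 120 of the add-or-subtract digit reversal map
-/

namespace Pool.Agent.Results.MP_8c5d11_nt.CycleOfLength120

/-- `rev D`: the integer obtained by reading the decimal digits of `D` in reverse order (leading
zeros of the result are dropped). -/
def rev (D : ℕ) : ℕ := Nat.ofDigits 10 (Nat.digits 10 D).reverse

/-- The map `T`: subtract the reversal if it is smaller, otherwise add it. -/
def T (D : ℕ) : ℕ := if rev D < D then D - rev D else D + rev D

/-- Reversal with an accumulator. -/
def revF : ℕ → ℕ → ℕ → ℕ
  | 0, _, acc => acc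
  | k + 1, n, acc => if n = 0 then acc else revF k (n / 10) (acc * 10 + n % 10)

theorem revF_eq (k n acc : ℕ) (h : n < 10 ^ k) :
    revF k n acc = acc * 10 ^ (Nat.digits 10 n).length + rev n := by
  induction k generalizing n acc with
  | zero =>
    have : n = 0 := by simpa using h
    subst this
    simp [revF, rev]
  | succ k ih =>
    rw [revF]
    split_ifs with hn
    · subst hn
      simp [rev]
    · have h1 : n / 10 < 10 ^ k := by
        rw [Nat.div_lt_iff_lt_mul (by norm_num)]
        rwa [pow_succ] at h
      rw [ih _ _ h1]
      have h2 : Nat.digits 10 n = n % 10 :: Nat.digits 10 (n / 10) :=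
        Nat.digits_def' (by norm_num) (Nat.pos_of_ne_zero hn)
      unfold rev
      rw [h2, List.reverse_cons, Nat.ofDigits_append, List.length_cons, List.length_reverse,
        Nat.ofDigits_singleton]
      ring

/-- One step of `T` with the fast reversal. -/
def step (x : ℕ) : ℕ := if revF 160 x 0 < x then x - revF 160 x 0 else x + revF 160 x 0

theorem step_eq {x : ℕ} (h : x < 10 ^ 160) : step x = T x := by
  have h1 := revF_eq 160 x 0 h
  rw [zero_mul, zero_add] at h1
  rw [step, T, h1]

/-- Check that the first entries of the orbit differ from `D` and that the last one is `D`. -/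
def run (D : ℕ) : ℕ → ℕ → Bool
  | 0, x => x == D
  | k + 1, x => x != D && decide (x < 10 ^ 160) && run D k (step x)

theorem run_spec (D k x : ℕ) (h : run D k x = true) :
    (∀ j < k, T^[j] x ≠ D) ∧ T^[k] x = D := by
  induction k generalizing x with
  | zero => exact ⟨fun j hj => absurd hj (by omega), by simpa [run] using h⟩
  | succ k ih =>
    simp only [run, Bool.and_eq_true, bne_iff_ne, decide_eq_true_eq] at h
    obtain ⟨⟨h1, h2⟩, h3⟩ := h
    rw [step_eq h2] at h3
    obtain ⟨h4, h5⟩ := ih _ h3
    refine ⟨fun j hj => ?_, by rwa [Function.iterate_succ_apply]⟩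
    rcases j with _ | j
    · exact h1
    · rw [Function.iterate_succ_apply]
      exact h4 j (by omega)

/-- A number with 143 digits. -/
def start : ℕ :=
  97237810989008110872000000010900900900999999918891279989000001089008110872001098900001099188912799999998909909909900000008110872001099902762189

theorem check : run start 119 (step start) = true := by decide +kernel

theorem result : ∃ D > 0, T^[120] D = D ∧ ∀ k, 0 < k → k < 120 → T^[k] D ≠ D := by
  have h := run_spec start 119 (step start) check
  rw [step_eq (by unfold start; norm_num)] at h
  refine ⟨start, by unfold start; norm_num, ?_, fun k hk hk2 => ?_⟩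
  · rw [Function.iterate_succ_apply]
    exact h.2
  · obtain ⟨j, rfl⟩ : ∃ j, k = j + 1 := ⟨k - 1, by omega⟩
    rw [Function.iterate_succ_apply]
    exact h.1 j (by omega)

end Pool.Agent.Results.MP_8c5d11_nt.CycleOfLength120
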